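import Pool.Agent.Helper58.PB.StM

/-!
# Project PB, module TAI: tail of the singular series (Rankin)

`lct` is multiplicative on coprime arguments, so `∑_{T ∣ Π} lct(T) √T = ∏_{p ≤ Q} (1 + √p lct(p))`; the local factor is at most
`1 + √p/(p-1)² ≤ exp(4 p^{-3/2})` for `p ∤ abc` and at most `4` for `p ∣ abc`.
-/

set_option autoImplicit false

namespace Pool.Agent.Helper86.PB

open Finset ArithmeticFunction
open Pool.Agent.Helper58.PB
open Pool.Agent.Helper48.BK (AdN)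
open Pool.Agent.Helper23.GK (cR)

private lemma totMul_TAI (a m n : ℕ) (h : Nat.Coprime m n) :
    Nat.totient (m * n / Nat.gcd (m * n) a) =
      Nat.totient (m / Nat.gcd m a) * Nat.totient (n / Nat.gcd n a) := by
  have h1 : Nat.gcd (m * n) a = Nat.gcd m a * Nat.gcd n a := by
    rw [Nat.gcd_comm (m * n) a, Nat.Coprime.gcd_mul a h, Nat.gcd_comm a m, Nat.gcd_comm a n]
  have hm : Nat.gcd m a ∣ m := Nat.gcd_dvd_left m a
  have hn : Nat.gcd n a ∣ n := Nat.gcd_dvd_left n a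
  rw [h1, Nat.mul_div_mul_comm hm hn]
  apply Nat.totient_mul
  exact Nat.Coprime.coprime_div_left (Nat.Coprime.coprime_div_right h hn) hm

private lemma lctMul_TAI (hC : StCrm) (a b c m n : ℕ) (d : ℤ) (h : Nat.Coprime m n) :
    lct a b c d (m * n) = lct a b c d m * lct a b c d n := by
  unfold lct
  rw [totMul_TAI a m n h, totMul_TAI b m n h, totMul_TAI c m n h, hC.1 m n d h]
  push_cast
  rw [abs_mul, div_mul_div_comm]
  congr 1
  ring

private lemma lct_nonneg_TAI (a b c T : ℕ) (d : ℤ) : 0 ≤ lct a b c d T := by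
  unfold lct
  positivity

/-- the weighted local terms as an arithmetic function -/
private noncomputable def gg_TAI (a b c : ℕ) (d : ℤ) : ArithmeticFunction ℝ :=
  ⟨fun T => if T = 0 then 0 else lct a b c d T * Real.sqrt T, by simp⟩

private lemma gg_apply_TAI (a b c : ℕ) (d : ℤ) (T : ℕ) (hT : T ≠ 0) :
    gg_TAI a b c d T = lct a b c d T * Real.sqrt T := by
  show (if T = 0 then (0 : ℝ) else lct a b c d T * Real.sqrt T) = _
  rw [if_neg hT]

private lemma cR_one_TAI (hC : StCrm) (d : ℤ) : |cR 1 d| = 1 := by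
  have := hC.2.2 1 d le_rfl squarefree_one
  rw [this]
  simp

private lemma gg_mult_TAI (hC : StCrm) (a b c : ℕ) (d : ℤ) : (gg_TAI a b c d).IsMultiplicative := by
  refine ⟨?_, ?_⟩
  · rw [gg_apply_TAI a b c d 1 one_ne_zero]
    have h1 : |((cR 1 d : ℤ) : ℝ)| = 1 := by
      have := cR_one_TAI hC d
      exact_mod_cast this
    unfold lct
    rw [h1]
    simp
  · intro m n h
    rcases Nat.eq_zero_or_pos m with hm | hm
    · subst hm; simp
    rcases Nat.eq_zero_or_pos n with hn | hn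
    · subst hn; simp
    rw [gg_apply_TAI a b c d _ (by positivity), gg_apply_TAI a b c d _ (by positivity),
      gg_apply_TAI a b c d _ (by positivity), lctMul_TAI hC a b c m n d h]
    push_cast
    rw [Real.sqrt_mul (by positivity)]
    ring

private lemma pi0_sqf_TAI (Q : ℕ) : Squarefree (Pi0 Q) := by
  unfold Pi0
  apply Finset.squarefree_prod_of_pairwise_isCoprime
  · intro p hp q hq hpq
    simp only [coe_filter, mem_range, Set.mem_ofPred_eq] at hp hq
    show IsRelPrime p q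
    exact (Nat.coprime_iff_isRelPrime).1 ((Nat.coprime_primes hp.2 hq.2).2 hpq)
  · intro p hp
    simp only [mem_filter, mem_range] at hp
    exact hp.2.prime.squarefree

private lemma pi0_pf_TAI (Q : ℕ) : (Pi0 Q).primeFactors = (range (Q + 1)).filter Nat.Prime := by
  unfold Pi0
  apply Nat.primeFactors_prod
  intro p hp
  simp only [mem_filter, mem_range] at hp
  exact hp.2

/-- the totient of `p / gcd(p, a)` -/
private lemma tot_p_TAI (a p : ℕ) (hp : p.Prime) :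
    ((Nat.totient (p / Nat.gcd p a) : ℕ) : ℝ) = if p ∣ a then 1 else (p : ℝ) - 1 := by
  split_ifs with h
  · rw [Nat.gcd_eq_left h, Nat.div_self hp.pos]
    simp
  · have : Nat.gcd p a = 1 := (Nat.Prime.coprime_iff_not_dvd hp).2 h
    rw [this, Nat.div_one, Nat.totient_prime hp]
    rw [Nat.cast_sub hp.one_lt.le]
    simp

private lemma cR_p_TAI (hC : StCrm) (p : ℕ) (d : ℤ) (hp : p.Prime) :
    |((cR p d : ℤ) : ℝ)| = if (p : ℤ) ∣ d then (p : ℝ) - 1 else 1 := by
  have h0 := hC.2.2 p d hp.one_lt.le hp.prime.squarefree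
  have h1 : |((cR p d : ℤ) : ℝ)| = ((Nat.totient (Nat.gcd p d.natAbs) : ℕ) : ℝ) := by
    exact_mod_cast h0
  rw [h1]
  split_ifs with h
  · have h2 : p ∣ d.natAbs := Int.natCast_dvd.1 h
    rw [Nat.gcd_eq_left h2, Nat.totient_prime hp, Nat.cast_sub hp.one_lt.le]
    simp
  · have h2 : ¬ p ∣ d.natAbs := fun h' => h (Int.natCast_dvd.2 h')
    have : Nat.gcd p d.natAbs = 1 := (Nat.Prime.coprime_iff_not_dvd hp).2 h2
    rw [this]
    simp

private lemma one_le_sub_TAI (p : ℕ) (hp : p.Prime) : (1 : ℝ) ≤ (p : ℝ) - 1 := by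
  have : (2 : ℝ) ≤ p := by exact_mod_cast hp.two_le
  linarith

/-- a prime dividing two coefficients does not divide `d` -/
private lemma notdvd_TAI (p x y : ℕ) (d : ℤ) (hp : p.Prime)
    (h : Nat.gcd d.natAbs (Nat.gcd x y) = 1) (hx : p ∣ x) (hy : p ∣ y) : ¬ (p : ℤ) ∣ d := by
  intro hd
  have h1 : p ∣ d.natAbs := Int.natCast_dvd.1 hd
  have h2 : p ∣ Nat.gcd d.natAbs (Nat.gcd x y) := Nat.dvd_gcd h1 (Nat.dvd_gcd hx hy)
  rw [h] at h2
  exact hp.one_lt.ne' (Nat.dvd_one.1 h2)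

private lemma lct_p_TAI (hC : StCrm) (a b c p : ℕ) (d : ℤ) (hp : p.Prime) (hA : AdN a b c d) :
    lct a b c d p ≤ if p ∣ a * b * c then 1 / ((p : ℝ) - 1) else 1 / ((p : ℝ) - 1) ^ 2 := by
  obtain ⟨-, hg, hab, hac, hbc⟩ := hA
  have hq : (1 : ℝ) ≤ (p : ℝ) - 1 := one_le_sub_TAI p hp
  set q : ℝ := (p : ℝ) - 1 with hqdef
  have hq0 : 0 < q := by linarith
  have hi : 1 / q ≤ 1 := by
    rw [div_le_one hq0]; exact hq
  unfold lct
  rw [tot_p_TAI a p hp, tot_p_TAI b p hp, tot_p_TAI c p hp, cR_p_TAI hC p d hp, ← hqdef]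
  have hnot3 : ¬ (p ∣ a ∧ p ∣ b ∧ p ∣ c) := by
    rintro ⟨h1, h2, h3⟩
    have h4 : p ∣ Nat.gcd a (Nat.gcd b c) := Nat.dvd_gcd h1 (Nat.dvd_gcd h2 h3)
    rw [hg] at h4
    exact hp.one_lt.ne' (Nat.dvd_one.1 h4)
  have key1 : (if (p : ℤ) ∣ d then q else 1) ≤ q := by
    split_ifs
    · exact le_rfl
    · exact hq
  have hdiv : p ∣ a * b * c ↔ (p ∣ a ∨ p ∣ b ∨ p ∣ c) := by
    rw [hp.dvd_mul, hp.dvd_mul, or_assoc]
  have one_case : ∀ x : ℝ, x ≤ q → x / (q * q) ≤ 1 / q := by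
    intro x hx
    rw [div_le_div_iff₀ (by positivity) hq0]
    nlinarith
  by_cases ha : p ∣ a <;> by_cases hb : p ∣ b <;> by_cases hc : p ∣ c
  · exact absurd ⟨ha, hb, hc⟩ hnot3
  · rw [if_pos ha, if_pos hb, if_neg hc, if_neg (notdvd_TAI p a b d hp hab ha hb),
      if_pos (hdiv.2 (Or.inl ha))]
    simp
  · rw [if_pos ha, if_neg hb, if_pos hc, if_neg (notdvd_TAI p a c d hp hac ha hc),
      if_pos (hdiv.2 (Or.inl ha))]
    simp
  · rw [if_pos ha, if_neg hb, if_neg hc, if_pos (hdiv.2 (Or.inl ha)), one_mul]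
    exact one_case _ key1
  · rw [if_neg ha, if_pos hb, if_pos hc, if_neg (notdvd_TAI p b c d hp hbc hb hc),
      if_pos (hdiv.2 (Or.inr (Or.inl hb)))]
    simp
  · rw [if_neg ha, if_pos hb, if_neg hc, if_pos (hdiv.2 (Or.inr (Or.inl hb))), mul_one]
    exact one_case _ key1
  · rw [if_neg ha, if_neg hb, if_pos hc, if_pos (hdiv.2 (Or.inr (Or.inr hc))), mul_one]
    exact one_case _ key1
  · have hn : ¬ p ∣ a * b * c := by
      rw [hdiv]; tauto
    rw [if_neg ha, if_neg hb, if_neg hc, if_neg hn]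
    rw [div_le_div_iff₀ (by positivity) (by positivity)]
    nlinarith [key1, mul_pos hq0 hq0]

private lemma sqrt_le_TAI (p : ℕ) (hp : p.Prime) : Real.sqrt p ≤ 2 * ((p : ℝ) - 1) := by
  have h2 : (2 : ℝ) ≤ p := by exact_mod_cast hp.two_le
  have h1 : Real.sqrt p ≤ p := by
    rw [Real.sqrt_le_left (by positivity)]
    nlinarith
  linarith

/-- the local factor -/
private lemma factor_TAI (hC : StCrm) (a b c p : ℕ) (d : ℤ) (hp : p.Prime) (hA : AdN a b c d) :
    1 + gg_TAI a b c d p ≤ Real.exp (4 * (1 / (p : ℝ) ^ (3 / 2 : ℝ))) *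
      (if p ∣ a * b * c then 4 else 1) := by
  have h2 : (2 : ℝ) ≤ p := by exact_mod_cast hp.two_le
  have hp0 : (0 : ℝ) < p := by linarith
  have hq : (1 : ℝ) ≤ (p : ℝ) - 1 := one_le_sub_TAI p hp
  have hq0 : (0 : ℝ) < (p : ℝ) - 1 := by linarith
  have hs : 0 ≤ Real.sqrt p := Real.sqrt_nonneg _
  have hl := lct_p_TAI hC a b c p d hp hA
  rw [gg_apply_TAI a b c d p hp.ne_zero]
  have hpw : (0 : ℝ) < (p : ℝ) ^ (3 / 2 : ℝ) := Real.rpow_pos_of_pos hp0 _
  split_ifs with h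
  · rw [if_pos h] at hl
    have h3 : lct a b c d p * Real.sqrt p ≤ 2 := by
      calc lct a b c d p * Real.sqrt p ≤ 1 / ((p : ℝ) - 1) * (2 * ((p : ℝ) - 1)) :=
            mul_le_mul hl (sqrt_le_TAI p hp) hs (by positivity)
        _ = 2 := by field_simp
    have h4 : (1 : ℝ) ≤ Real.exp (4 * (1 / (p : ℝ) ^ (3 / 2 : ℝ))) :=
      Real.one_le_exp (by positivity)
    nlinarith
  · rw [if_neg h] at hl
    rw [mul_one]
    have h5 : lct a b c d p * Real.sqrt p ≤ 4 * (1 / (p : ℝ) ^ (3 / 2 : ℝ)) := by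
      have h6 : lct a b c d p * Real.sqrt p ≤ 1 / ((p : ℝ) - 1) ^ 2 * Real.sqrt p :=
        mul_le_mul_of_nonneg_right hl hs
      have h7 : 1 / ((p : ℝ) - 1) ^ 2 ≤ 4 / (p : ℝ) ^ 2 := by
        rw [div_le_div_iff₀ (by positivity) (by positivity)]
        nlinarith
      have h8 : 4 / (p : ℝ) ^ 2 * Real.sqrt p = 4 * (1 / (p : ℝ) ^ (3 / 2 : ℝ)) := by
        have h9 : (p : ℝ) ^ 2 = (p : ℝ) ^ (3 / 2 : ℝ) * Real.sqrt p := by
          rw [Real.sqrt_eq_rpow, ← Real.rpow_add hp0, ← Real.rpow_natCast]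
          norm_num
        have hs0 : 0 < Real.sqrt p := Real.sqrt_pos.2 hp0
        rw [h9]
        field_simp
      calc lct a b c d p * Real.sqrt p ≤ 1 / ((p : ℝ) - 1) ^ 2 * Real.sqrt p := h6
        _ ≤ 4 / (p : ℝ) ^ 2 * Real.sqrt p := mul_le_mul_of_nonneg_right h7 hs
        _ = _ := h8
    have h10 := Real.add_one_le_exp (4 * (1 / (p : ℝ) ^ (3 / 2 : ℝ)))
    linarith

private lemma two_pow_TAI (n : ℕ) (hn : n ≠ 0) : 2 ^ n.primeFactors.card ≤ n.divisors.card := by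
  rw [Nat.card_divisors hn]
  apply Finset.pow_card_le_prod
  intro p hp
  have h1 : 1 ≤ n.factorization p := by
    have hp' := Nat.mem_primeFactors.1 hp
    exact (Nat.Prime.dvd_iff_one_le_factorization hp'.1 hn).1 hp'.2.1
  omega

/-- the product over the primes up to `Q` -/
private lemma prod_TAI (hC : StCrm) (a b c Q : ℕ) (d : ℤ) (ha : 1 ≤ a) (hb : 1 ≤ b) (hc : 1 ≤ c)
    (hA : AdN a b c d) :
    ∑ T ∈ (Pi0 Q).divisors, gg_TAI a b c d T ≤
      Real.exp (4 * ∑' n : ℕ, 1 / (n : ℝ) ^ (3 / 2 : ℝ)) * ((a * b * c).divisors.card : ℝ) ^ 2 := by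
  have habc : a * b * c ≠ 0 := by positivity
  have h1 := (gg_mult_TAI hC a b c d).prodPrimeFactors_one_add_of_squarefree (pi0_sqf_TAI Q)
  rw [← h1, pi0_pf_TAI]
  set S := (range (Q + 1)).filter Nat.Prime with hS
  have hSp : ∀ p ∈ S, p.Prime := by
    intro p hp
    rw [hS, mem_filter] at hp
    exact hp.2
  have hsum : Summable (fun n : ℕ => 1 / (n : ℝ) ^ (3 / 2 : ℝ)) :=
    Real.summable_one_div_nat_rpow.2 (by norm_num)
  have h2 : ∏ p ∈ S, (1 + gg_TAI a b c d p) ≤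
      ∏ p ∈ S, (Real.exp (4 * (1 / (p : ℝ) ^ (3 / 2 : ℝ))) * (if p ∣ a * b * c then 4 else 1)) := by
    apply Finset.prod_le_prod
    · intro p hp
      rw [gg_apply_TAI a b c d p (hSp p hp).ne_zero]
      have := lct_nonneg_TAI a b c p d
      positivity
    · intro p hp
      exact factor_TAI hC a b c p d (hSp p hp) hA
  refine h2.trans ?_
  rw [Finset.prod_mul_distrib, ← Real.exp_sum]
  apply mul_le_mul
  · apply Real.exp_le_exp.2
    rw [← Finset.mul_sum]
    apply mul_le_mul_of_nonneg_left _ (by norm_num)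
    exact hsum.sum_le_tsum S (fun n _ => by positivity)
  · have h3 : ∏ p ∈ S, (if p ∣ a * b * c then (4 : ℝ) else 1) =
        4 ^ (S.filter (fun p => p ∣ a * b * c)).card := by
      rw [← Finset.prod_filter, Finset.prod_const]
    rw [h3]
    have h4 : (S.filter (fun p => p ∣ a * b * c)).card ≤ (a * b * c).primeFactors.card := by
      apply Finset.card_le_card
      intro p hp
      rw [mem_filter] at hp
      exact Nat.mem_primeFactors.2 ⟨hSp p hp.1, hp.2, habc⟩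
    have h5 : (2 : ℝ) ^ (a * b * c).primeFactors.card ≤ ((a * b * c).divisors.card : ℝ) := by
      exact_mod_cast two_pow_TAI (a * b * c) habc
    calc (4 : ℝ) ^ (S.filter (fun p => p ∣ a * b * c)).card ≤ 4 ^ (a * b * c).primeFactors.card :=
          pow_le_pow_right₀ (by norm_num) h4
      _ = ((2 : ℝ) ^ (a * b * c).primeFactors.card) ^ 2 := by
          rw [← pow_mul, mul_comm (a * b * c).primeFactors.card 2, pow_mul]; norm_num
      _ ≤ ((a * b * c).divisors.card : ℝ) ^ 2 := by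
          apply pow_le_pow_left₀ (by positivity) h5
  · apply Finset.prod_nonneg
    intro p _
    split_ifs <;> norm_num
  · positivity

/-- TAI -/
theorem hTai : StCrm → StTai := by
  intro hC
  refine ⟨Real.exp (4 * ∑' n : ℕ, 1 / (n : ℝ) ^ (3 / 2 : ℝ)), ?_, ?_⟩
  · apply Real.one_le_exp
    have : 0 ≤ ∑' n : ℕ, 1 / (n : ℝ) ^ (3 / 2 : ℝ) := tsum_nonneg (fun n => by positivity)
    positivity
  intro a b c Q d y ha hb hc hA hy
  have hy2 : (0 : ℝ) < y ^ (-(1 / 2) : ℝ) := Real.rpow_pos_of_pos hy _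
  have h1 : ∑ T ∈ (Pi0 Q).divisors.filter (fun T : ℕ => y < T), lct a b c d T ≤
      ∑ T ∈ (Pi0 Q).divisors.filter (fun T : ℕ => y < T), y ^ (-(1 / 2) : ℝ) * gg_TAI a b c d T := by
    apply Finset.sum_le_sum
    intro T hT
    rw [mem_filter] at hT
    have hT0 : T ≠ 0 := (Nat.pos_of_mem_divisors hT.1).ne'
    rw [gg_apply_TAI a b c d T hT0]
    have h2 : 1 ≤ y ^ (-(1 / 2) : ℝ) * Real.sqrt T := by
      rw [Real.sqrt_eq_rpow, Real.rpow_neg hy.le, ← div_eq_inv_mul, one_le_div (by positivity)]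
      exact Real.rpow_le_rpow hy.le hT.2.le (by norm_num)
    have h3 := lct_nonneg_TAI a b c T d
    calc lct a b c d T = lct a b c d T * 1 := by ring
      _ ≤ lct a b c d T * (y ^ (-(1 / 2) : ℝ) * Real.sqrt T) := mul_le_mul_of_nonneg_left h2 h3
      _ = _ := by ring
  have h2 : ∑ T ∈ (Pi0 Q).divisors.filter (fun T : ℕ => y < T), y ^ (-(1 / 2) : ℝ) * gg_TAI a b c d T ≤
      ∑ T ∈ (Pi0 Q).divisors, y ^ (-(1 / 2) : ℝ) * gg_TAI a b c d T := by
    apply Finset.sum_le_sum_of_subset_of_nonneg (Finset.filter_subset _ _)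
    intro T hT _
    have hT0 : T ≠ 0 := (Nat.pos_of_mem_divisors hT).ne'
    rw [gg_apply_TAI a b c d T hT0]
    have h3 := lct_nonneg_TAI a b c T d
    positivity
  refine h1.trans (h2.trans ?_)
  rw [← Finset.mul_sum]
  calc y ^ (-(1 / 2) : ℝ) * ∑ T ∈ (Pi0 Q).divisors, gg_TAI a b c d T
      ≤ y ^ (-(1 / 2) : ℝ) * (Real.exp (4 * ∑' n : ℕ, 1 / (n : ℝ) ^ (3 / 2 : ℝ)) *
        ((a * b * c).divisors.card : ℝ) ^ 2) :=
        mul_le_mul_of_nonneg_left (prod_TAI hC a b c Q d ha hb hc hA) hy2.le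
    _ = _ := by ring

end Pool.Agent.Helper86.PB
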